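import Mathlib

/-!
# CFL: isotropic vectors in even lattices

`N` is an abelian group with an even symmetric bilinear form `Q`. `HK Q`: `N` contains a hyperbolic
plane. `exists_two`: let `w₀` be isotropic with `Q w₀ u` even for all `u`, and `Q l w₀ = -2`,
`Q l l = 2 mod 4`. If `Q y y = 0 mod 4` and `Q y u` is odd for some `y`, `u`, then there is an
isotropic vector `w` with `Q w w₀ = -2` such that `Q w u` is odd for some `u`.
-/

set_option autoImplicit false

namespace Pool.Agent.CFL

variable {N : Type*} [AddCommGroup N] {Q : N →ₗ[ℤ] N →ₗ[ℤ] ℤ}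

/-- `N` contains a hyperbolic plane -/
def HK (Q : N →ₗ[ℤ] N →ₗ[ℤ] ℤ) : Prop := ∃ e f : N, Q e e = 0 ∧ Q f f = 0 ∧ Q e f = 1

theorem hk_of_one (hs : ∀ x y, Q x y = Q y x) (he : ∀ x, Even (Q x x)) {w u : N}
    (hw : Q w w = 0) (hu : Q w u = 1) : HK Q := by
  obtain ⟨k, hk⟩ := he u
  refine ⟨w, u - k • w, hw, ?_, ?_⟩
  · simp only [map_sub, map_smul, LinearMap.sub_apply, LinearMap.smul_apply, smul_eq_mul, hw,
      hs u w, hu, hk]
    ring
  · simp only [map_sub, map_smul, smul_eq_mul, hw, hu]
    ring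

theorem hk_of_coprime (hs : ∀ x y, Q x y = Q y x) (he : ∀ x, Even (Q x x)) {w u u' : N}
    (hw : Q w w = 0) (hu : IsCoprime (Q w u) (Q w u')) : HK Q := by
  obtain ⟨a, b, hab⟩ := hu
  refine hk_of_one hs he (u := a • u + b • u') hw ?_
  simp only [map_add, map_smul, smul_eq_mul]
  exact hab

theorem exists_two (hs : ∀ x y, Q x y = Q y x) (he : ∀ x, Even (Q x x)) {l w₀ : N}
    (hl : Q l l % 4 = 2) (hlw : Q l w₀ = -2) (hw₀ : Q w₀ w₀ = 0) (hev : ∀ u, Even (Q w₀ u))
    {y u : N} (hy : Q y y % 4 = 0) (hu : Odd (Q y u)) :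
    ∃ w, Q w w = 0 ∧ Q w w₀ = -2 ∧ ∃ u, Odd (Q w u) := by
  -- it is enough to find `w` with `Q w w = 0 mod 4`
  have step : ∀ w₁ u₁ : N, Q w₁ w₁ % 4 = 0 → Q w₁ w₀ = -2 → Odd (Q w₁ u₁) →
      ∃ w, Q w w = 0 ∧ Q w w₀ = -2 ∧ ∃ u, Odd (Q w u) := by
    intro w₁ u₁ h1 h2 h3
    obtain ⟨k, hk⟩ : ∃ k, Q w₁ w₁ = 4 * k := ⟨Q w₁ w₁ / 4, by omega⟩
    refine ⟨w₁ + k • w₀, ?_, ?_, u₁, ?_⟩
    · simp only [map_add, map_smul, LinearMap.add_apply, LinearMap.smul_apply, smul_eq_mul, hk, h2,
        hs w₀ w₁, hw₀]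
      ring
    · simp only [map_add, map_smul, LinearMap.add_apply, LinearMap.smul_apply, smul_eq_mul, h2,
        hw₀]
      ring
    · simp only [map_add, map_smul, LinearMap.add_apply, LinearMap.smul_apply, smul_eq_mul]
      exact h3.add_even ((hev u₁).mul_left k)
  obtain ⟨k, hk⟩ := hev y
  obtain ⟨m, hm⟩ := hev u
  have hyw : Q y w₀ = k + k := by rw [hs, hk]
  have huw : Q u w₀ = m + m := by rw [hs, hm]
  rcases Int.even_or_odd' k with ⟨s, hks | hks⟩
  · -- `p = y + 2 s l` is orthogonal to `w₀`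
    obtain ⟨p, hp⟩ : ∃ p, p = y + (2 * s) • l := ⟨_, rfl⟩
    have p1 : Q p p = Q y y + 4 * (s * Q y l) + 4 * (s * s * Q l l) := by
      rw [hp]
      simp only [map_add, map_smul, LinearMap.add_apply, LinearMap.smul_apply, smul_eq_mul,
        hs l y]
      ring
    have p2 : Q p w₀ = 0 := by
      rw [hp]
      simp only [map_add, map_smul, LinearMap.add_apply, LinearMap.smul_apply, smul_eq_mul, hyw,
        hlw, hks]
      ring
    have p3 : Q p u = Q y u + 2 * (s * Q l u) := by
      rw [hp]
      simp only [map_add, map_smul, LinearMap.add_apply, LinearMap.smul_apply, smul_eq_mul]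
      ring
    have p1' : Q p p % 4 = 0 := by omega
    have p3' : Odd (Q p u) := by
      rw [p3]
      exact hu.add_even (even_two_mul _)
    have hpp : Even (Q p p) := he p
    rcases Int.even_or_odd (Q p l) with h1 | h1
    · -- `E = u + m l` is orthogonal to `w₀`
      obtain ⟨E, hE⟩ : ∃ E, E = u + m • l := ⟨_, rfl⟩
      have e1 : Q E w₀ = 0 := by
        rw [hE]
        simp only [map_add, map_smul, LinearMap.add_apply, LinearMap.smul_apply, smul_eq_mul, huw,
          hlw]
        ring
      have e2 : Odd (Q p E) := by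
        rw [hE, map_add, map_smul, smul_eq_mul]
        exact p3'.add_even (h1.mul_left m)
      obtain ⟨g, hg⟩ : ∃ g, g = l + E := ⟨_, rfl⟩
      have g1 : Odd (Q g p) := by
        rw [hg, map_add, LinearMap.add_apply, hs l p, hs E p]
        exact h1.add_odd e2
      have g2 : Q g w₀ = -2 := by
        rw [hg, map_add, LinearMap.add_apply, hlw, e1]
        ring
      obtain ⟨c, hc⟩ := he g
      rcases Int.even_or_odd' c with ⟨d, hd | hd⟩
      · exact step g p (by omega) g2 g1
      · refine step (g + p) p ?_ ?_ ?_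
        · obtain ⟨c', hc'⟩ := g1
          have h2 : Q (g + p) (g + p) = Q g g + 2 * Q g p + Q p p := by
            simp only [map_add, LinearMap.add_apply, hs p g]
            ring
          omega
        · rw [map_add, LinearMap.add_apply, g2, p2]
          ring
        · rw [map_add, LinearMap.add_apply]
          exact g1.add_even hpp
    · refine step (l + p) p ?_ ?_ ?_
      · obtain ⟨c', hc'⟩ := h1
        have h2 : Q (l + p) (l + p) = Q l l + 2 * Q p l + Q p p := by
          simp only [map_add, LinearMap.add_apply, hs l p]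
          ring
        omega
      · rw [map_add, LinearMap.add_apply, hlw, p2]
        ring
      · rw [map_add, LinearMap.add_apply, hs l p]
        exact h1.add_even hpp
  · -- `k = 2 s + 1`
    refine step (y + (2 * (s + 1)) • l) u ?_ ?_ ?_
    · have p1 : Q (y + (2 * (s + 1)) • l) (y + (2 * (s + 1)) • l) =
          Q y y + 4 * ((s + 1) * Q y l) + 4 * ((s + 1) * (s + 1) * Q l l) := by
        simp only [map_add, map_smul, LinearMap.add_apply, LinearMap.smul_apply, smul_eq_mul,
          hs l y]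
        ring
      omega
    · simp only [map_add, map_smul, LinearMap.add_apply, LinearMap.smul_apply, smul_eq_mul, hyw,
        hlw, hks]
      ring
    · have p3 : Q (y + (2 * (s + 1)) • l) u = Q y u + 2 * ((s + 1) * Q l u) := by
        simp only [map_add, map_smul, LinearMap.add_apply, LinearMap.smul_apply, smul_eq_mul]
        ring
      rw [p3]
      exact hu.add_even (even_two_mul _)

end Pool.Agent.CFL
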