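import Pool.Agent.CFL.L24

/-!
# CFL: the criteria of Hassett and Kuznetsov and of Galkin and Shinder on `C_18`

The notation is that of `Pool.Agent.DIX.Labels`. `X` is in `C_18`: `v` in `A`, `v · h = 0`,
`v · v = 6`. `w₀ = λ₁ - λ₂ + v` is isotropic. It belongs to a K3 surface `S` of degree 2 with the
polarisation `λ₁ + λ₂ = (-1, h)` modulo `w₀` and to a class `β` of order 1 or 3. It is trivial if
and only if the fibration by sextic del Pezzo surfaces has a multisection of degree prime to 3. `-v`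
belongs to the second fibration.
-/

set_option autoImplicit false

namespace Pool.Agent.CFL

open Pool.Agent.DIX.Labels

variable {A : Type*} [AddCommGroup A]

/-- `w₀ = λ₁ - λ₂ + v` -/
def w18 (h v : A) : ℤ × A := (-3, h + v)

/-- One of the two fibrations has a multisection of degree prime to 3: `w₀` has the divisibility 1
for `v` or for `-v`. -/
def Section18 (B : A →ₗ[ℤ] A →ₗ[ℤ] ℤ) (h v : A) : Prop :=
  (∃ u, ¬ 3 ∣ mukai B h (w18 h v) u) ∨ ∃ u, ¬ 3 ∣ mukai B h (w18 h (-v)) u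

/-- There is a K3 surface of degree 18: an isotropic vector `w` with `(w, w₀) = -3` such that
`(w, λ₁ + λ₂)` is not divisible by 3 (then `⟨w₀, w, λ₁ + λ₂⟩ = U + ⟨18⟩`). -/
def Type18 (B : A →ₗ[ℤ] A →ₗ[ℤ] ℤ) (h v : A) : Prop := ∃ w, mukai B h w w = 0 ∧
  mukai B h w (w18 h v) = -3 ∧ ¬ 3 ∣ mukai B h w (-1, h)

theorem hk_of_gs {B : A →ₗ[ℤ] A →ₗ[ℤ] ℤ} (hs : ∀ S T, B S T = B T S) {h : A}
    (hpar : ∀ T, Even (B T T - B h T)) (hG : GalkinShinder B h) : HassettKuznetsov B h := by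
  obtain ⟨w, h1, h2⟩ := hG
  exact hk_of_one (Q := mukaiL B h) (mukai_symm hs h) (mukai_even hpar) h1 h2

section

variable {B : A →ₗ[ℤ] A →ₗ[ℤ] ℤ} (hs : ∀ S T, B S T = B T S) {h : A} (hh : B h h = 3)
  (hpar : ∀ T, Even (B T T - B h T)) {v : A} (hhv : B h v = 0) (hv : B v v = 6)

include hs hh hhv hv in
theorem w18_sq : mukai B h (w18 h v) (w18 h v) = 0 := by
  unfold mukai w18
  simp only [map_add, LinearMap.add_apply, hh, hhv, hs v h, hv]
  norm_num

include hh hhv in
theorem w18_mukai (u : ℤ × A) :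
    mukai B h (w18 h v) u = -3 * u.1 - B h u.2 - B v u.2 := by
  unfold mukai w18
  simp only [map_add, LinearMap.add_apply, hh, hhv]
  ring

theorem sq_mod (t : ℤ) : (t % 3 = 0 ∧ (t * t) % 3 = 0) ∨ (t % 3 ≠ 0 ∧ (t * t) % 3 = 1) := by
  obtain ⟨q, hq⟩ : ∃ q, q = t / 3 := ⟨_, rfl⟩
  have h1 : t % 3 = 0 ∨ t % 3 = 1 ∨ t % 3 = 2 := by omega
  rcases h1 with h1 | h1 | h1
  · left
    have h2 : t = 3 * q := by omega
    refine ⟨h1, ?_⟩
    have h3 : t * t = 3 * (q * t) := by
      rw [h2]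
      ring
    omega
  · right
    have h2 : t = 3 * q + 1 := by omega
    refine ⟨by omega, ?_⟩
    have h3 : t * t = 3 * (3 * q * q + 2 * q) + 1 := by
      rw [h2]
      ring
    omega
  · right
    have h2 : t = 3 * q + 2 := by omega
    refine ⟨by omega, ?_⟩
    have h3 : t * t = 3 * (3 * q * q + 4 * q + 1) + 1 := by
      rw [h2]
      ring
    omega

include hs hh hhv hv in
/-- A multisection of degree prime to 3 gives the vector of Galkin and Shinder. -/
theorem gs_of_section (H : Section18 B h v) : GalkinShinder B h := by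
  -- a class `T` for which `h · T` and `v · T` are not both divisible by 3
  obtain ⟨T, hT⟩ : ∃ T, ¬ (B h T % 3 = 0 ∧ B v T % 3 = 0) := by
    rcases H with ⟨u, hu⟩ | ⟨u, hu⟩
    · refine ⟨u.2, fun h0 => hu ?_⟩
      rw [w18_mukai hh hhv]
      omega
    · refine ⟨u.2, fun h0 => hu ?_⟩
      have hhv' : B h (-v) = 0 := by rw [map_neg, hhv, neg_zero]
      rw [w18_mukai hh hhv', map_neg, LinearMap.neg_apply]
      omega
  obtain ⟨t, ht⟩ : ∃ t, t = B h T := ⟨_, rfl⟩
  obtain ⟨r, hr⟩ : ∃ r, r = B v T := ⟨_, rfl⟩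
  obtain ⟨b, hb⟩ : ∃ b, b = B T T := ⟨_, rfl⟩
  rw [← ht, ← hr] at hT
  have e1 := sq_mod t
  have e2 := sq_mod r
  obtain ⟨tt, htt⟩ : ∃ tt, tt = t * t := ⟨_, rfl⟩
  obtain ⟨rr, hrr⟩ : ∃ rr, rr = r * r := ⟨_, rfl⟩
  rw [← htt] at e1
  rw [← hrr] at e2
  obtain ⟨x, σ, hσ, hx⟩ : ∃ x σ : ℤ, (σ = 1 ∨ σ = -1) ∧
      3 * x + r = σ * (2 * (3 * b - tt) - 1 - rr) := by
    by_cases h1 : (2 * (3 * b - tt) - 1 - rr - r) % 3 = 0
    · exact ⟨(2 * (3 * b - tt) - 1 - rr - r) / 3, 1, Or.inl rfl, by omega⟩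
    · exact ⟨(-(2 * (3 * b - tt) - 1 - rr) - r) / 3, -1, Or.inr rfl, by omega⟩
  obtain ⟨j, τ, hτ, hj⟩ : ∃ j τ : ℤ, (τ = 1 ∨ τ = -1) ∧
      2 * (τ * t) + 3 * j = 2 * (3 * b - tt) + 1 - rr := by
    by_cases h1 : (2 * (3 * b - tt) + 1 - rr - 2 * t) % 3 = 0
    · exact ⟨(2 * (3 * b - tt) + 1 - rr - 2 * t) / 3, 1, Or.inl rfl, by omega⟩
    · have h2 : (2 * (3 * b - tt) + 1 - rr + 2 * t) % 3 = 0 := by
        have h3 : t % 3 = 0 ∨ t % 3 = 1 ∨ t % 3 = 2 := by omega
        rcases e1 with e1 | e1 <;> rcases e2 with e2 | e2 <;> rcases h3 with h3 | h3 | h3 <;>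
          omega
      exact ⟨(2 * (3 * b - tt) + 1 - rr + 2 * t) / 3, -1, Or.inr rfl, by omega⟩
  have hσ2 : σ * σ = 1 := by rcases hσ with rfl | rfl <;> norm_num
  have hτ2 : τ * τ = 1 := by rcases hτ with rfl | rfl <;> norm_num
  obtain ⟨n, hn⟩ : ∃ n, n = 2 * (3 * b - tt) - 1 - rr := ⟨_, rfl⟩
  have hx2 : (3 * x + r) * (3 * x + r) = n * n := by
    rw [hx, ← hn]
    linear_combination n * n * hσ2
  refine ⟨(-1, (2 * τ) • T + (τ * x) • v + j • h), ?_, ?_⟩
  · -- `2 - 2 t'' + t'' ^ 2 = T'' ^ 2` with `t'' = n + 2`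
    have s1 : B h ((2 * τ) • T + (τ * x) • v + j • h) = n + 2 := by
      simp only [map_add, map_smul, smul_eq_mul, hh, hhv, ← ht]
      linear_combination hj - hn
    have s2 : B ((2 * τ) • T + (τ * x) • v + j • h) ((2 * τ) • T + (τ * x) • v + j • h) =
        4 * b + 4 * x * r + 6 * x ^ 2 + 4 * (τ * t) * j + 3 * j ^ 2 := by
      simp only [map_add, map_smul, LinearMap.add_apply, LinearMap.smul_apply, smul_eq_mul, hh,
        hhv, hs v h, hs T h, hs T v, hv, ← ht, ← hr, ← hb]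
      linear_combination (4 * b + 4 * x * r + 6 * x ^ 2) * hτ2
    unfold mukai
    simp only
    rw [s1, s2]
    have k1 : 3 * (2 * (-1) * (-1) + (-1) * (n + 2) + (-1) * (n + 2) + (n + 2) * (n + 2) -
        (4 * b + 4 * x * r + 6 * x ^ 2 + 4 * (τ * t) * j + 3 * j ^ 2)) = 3 * 0 := by
      have k2 : 3 * j = n + 2 - 2 * (τ * t) := by linear_combination hj - hn
      have k3 : 2 * (3 * b - tt) = n + 1 + rr := by linear_combination -hn
      linear_combination (-(3 * j) - (n + 2 - 2 * (τ * t)) - 4 * (τ * t)) * k2 +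
        2 * hx2 * (-1) - 2 * k3 - 4 * htt - 2 * hrr + 4 * t ^ 2 * hτ2
    linarith
  · unfold mukai
    simp only
    simp only [map_add, map_smul, LinearMap.add_apply, LinearMap.smul_apply, smul_eq_mul, hh,
      hhv, hs v h, hs T h]
    ring

include hs hh hpar hhv hv in
/-- Without multisections of degree prime to 3, a class `T` with a suitable label gives both
vectors. -/
theorem both_of_label (H : ¬ Section18 B h v) {T : A} (h0 : label B h T % 9 ≠ 0)
    (h3 : label B h T % 9 ≠ 3) : GalkinShinder B h ∧ Type18 B h v := by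
  have hdiv : ∀ T, B h T % 3 = 0 ∧ B v T % 3 = 0 := by
    intro T
    have e1 : 3 ∣ mukai B h (w18 h v) (0, T) := by
      by_contra hne
      exact H (Or.inl ⟨_, hne⟩)
    have e2 : 3 ∣ mukai B h (w18 h (-v)) (0, T) := by
      by_contra hne
      exact H (Or.inr ⟨_, hne⟩)
    have hhv' : B h (-v) = 0 := by rw [map_neg, hhv, neg_zero]
    rw [w18_mukai hh hhv] at e1
    rw [w18_mukai hh hhv', map_neg, LinearMap.neg_apply] at e2
    simp only at e1 e2
    omega
  obtain ⟨t', ht'⟩ : ∃ t', B h T = 3 * t' := ⟨B h T / 3, by have := (hdiv T).1; omega⟩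
  obtain ⟨y, hy⟩ : ∃ y, y = T - t' • h := ⟨_, rfl⟩
  have y1 : B h y = 0 := by
    rw [hy, map_sub, map_smul, hh, ht', smul_eq_mul]
    ring
  have y2 : B y y = B T T - 3 * (t' * t') := by
    rw [hy]
    simp only [map_sub, map_smul, LinearMap.sub_apply, LinearMap.smul_apply, smul_eq_mul, hh,
      hs T h, ht']
    ring
  have y3 : B y y % 3 = 2 := by
    have e1 : label B h T = 3 * B y y := by
      unfold label
      rw [y2, ht']
      ring
    omega
  have y4 : B y y % 2 = 0 := by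
    obtain ⟨c, hc⟩ := hpar y
    rw [y1] at hc
    omega
  obtain ⟨ρ, hρ⟩ : ∃ ρ, B v y = 3 * ρ := ⟨B v y / 3, by have := (hdiv y).2; omega⟩
  obtain ⟨j, ε, hε, hj⟩ : ∃ j ε : ℤ, (ε = 0 ∨ ε = 1) ∧ ρ = 2 * j + ε :=
    ⟨ρ / 2, ρ % 2, by omega, by omega⟩
  obtain ⟨z, hz⟩ : ∃ z, z = y - j • v := ⟨_, rfl⟩
  have z1 : B h z = 0 := by
    rw [hz, map_sub, map_smul, y1, hhv, smul_eq_mul]
    ring
  have z2 : B v z = 3 * ε := by
    rw [hz, map_sub, map_smul, hρ, hv, smul_eq_mul, hj]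
    ring
  have z3 : B z z = B y y + 6 * (j * j - j * ρ) := by
    rw [hz]
    simp only [map_sub, map_smul, LinearMap.sub_apply, LinearMap.smul_apply, smul_eq_mul, hv,
      hs y v, hρ]
    ring
  obtain ⟨κ, hκ⟩ : ∃ κ, B z z = 6 * κ + 2 := ⟨B z z / 6, by omega⟩
  have hzh : B z h = 0 := by rw [hs, z1]
  have hvh : B v h = 0 := by rw [hs, hhv]
  have hzv : B z v = 3 * ε := by rw [hs, z2]
  rcases hε with rfl | rfl
  · refine ⟨⟨(-1, (κ + 1) • h + z + κ • v), ?_, ?_⟩, (1 + 3 * κ, z - κ • (h + v)), ?_, ?_, ?_⟩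
    · unfold mukai
      simp only [map_add, map_smul, LinearMap.add_apply, LinearMap.smul_apply, smul_eq_mul, hh,
        hhv, hvh, hv, hκ, z1, z2, hzh, hzv]
      ring
    · unfold mukai
      simp only [map_add, map_smul, LinearMap.add_apply, LinearMap.smul_apply, smul_eq_mul, hh,
        hhv, hvh, z1, hzh]
      ring
    · unfold mukai
      simp only [map_add, map_sub, map_smul, LinearMap.add_apply, LinearMap.sub_apply,
        LinearMap.smul_apply, smul_eq_mul, hh, hhv, hvh, hv, hκ, z1, z2, hzh, hzv]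
      ring
    · rw [mukai_symm hs, w18_mukai hh hhv]
      simp only [map_add, map_sub, map_smul, smul_eq_mul, hh, hhv, hvh, hv, z1, z2]
      ring
    · unfold mukai
      simp only [map_add, map_sub, map_smul, LinearMap.add_apply, LinearMap.sub_apply,
        LinearMap.smul_apply, smul_eq_mul, hh, hhv, hvh, z1, hzh]
      ring_nf
      omega
  · refine ⟨⟨(-1, (4 * κ + 1) • h + (2 : ℤ) • z + (4 * κ - 1) • v), ?_, ?_⟩,
      (3 * κ - 1, (1 - κ) • h + z - κ • v), ?_, ?_, ?_⟩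
    · unfold mukai
      simp only [map_add, map_smul, LinearMap.add_apply, LinearMap.smul_apply, smul_eq_mul, hh,
        hhv, hvh, hv, hκ, z1, z2, hzh, hzv]
      ring
    · unfold mukai
      simp only [map_add, map_smul, LinearMap.add_apply, LinearMap.smul_apply, smul_eq_mul, hh,
        hhv, hvh, z1, hzh]
      ring
    · unfold mukai
      simp only [map_add, map_sub, map_smul, LinearMap.add_apply, LinearMap.sub_apply,
        LinearMap.smul_apply, smul_eq_mul, hh, hhv, hvh, hv, hκ, z1, z2, hzh, hzv]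
      ring
    · rw [mukai_symm hs, w18_mukai hh hhv]
      simp only [map_add, map_sub, map_smul, smul_eq_mul, hh, hhv, hvh, hv, z1, z2]
      ring
    · unfold mukai
      simp only [map_add, map_sub, map_smul, LinearMap.add_apply, LinearMap.sub_apply,
        LinearMap.smul_apply, smul_eq_mul, hh, hhv, hvh, z1, hzh]
      ring_nf
      omega

include hs hh hpar hhv hv in
/-- A K3 surface of degree 18 gives a hyperbolic plane. -/
theorem hk_of_type18 (H : Type18 B h v) : HassettKuznetsov B h := by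
  obtain ⟨w, h1, h2, h3⟩ := H
  refine hk_of_coprime (Q := mukaiL B h) (mukai_symm hs h) (mukai_even hpar)
    (w := w) (u := w18 h v) (u' := (-1, h)) h1 ?_
  rw [mukaiL_apply, mukaiL_apply, h2]
  exact (Int.prime_three.coprime_iff_not_dvd.2 h3).neg_left

omit hh hpar hhv hv in
include hs in
/-- If all labels are `0` or `3` modulo `9`, then there is no hyperbolic plane. -/
theorem label_of_hk18 (hK : HassettKuznetsov B h) :
    ∃ T, label B h T % 9 ≠ 0 ∧ label B h T % 9 ≠ 3 := by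
  by_contra hcon
  have hl : ∀ T, label B h T % 9 = 0 ∨ label B h T % 9 = 3 := by
    intro T
    by_contra hne
    exact hcon ⟨T, fun h0 => hne (Or.inl h0), fun h0 => hne (Or.inr h0)⟩
  have h3 : ∀ T, B h T % 3 = 0 := by
    intro T
    have e1 := hl T
    have e2 := sq_mod (B h T)
    have e3 : label B h T = 3 * B T T - B h T * B h T := by
      unfold label
      ring
    omega
  have hT2 : ∀ T, B T T % 3 = 0 ∨ B T T % 3 = 1 := by
    intro T
    have e1 := hl T
    obtain ⟨k, hk⟩ : ∃ k, B h T = 3 * k := ⟨B h T / 3, by have := h3 T; omega⟩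
    have e3 : label B h T = 3 * B T T - 9 * (k * k) := by
      unfold label
      rw [hk]
      ring
    omega
  have hiso : ∀ w : ℤ × A, mukai B h w w = 0 → w.1 % 3 = 0 ∧ B w.2 w.2 % 3 = 0 := by
    intro w hw
    obtain ⟨k, hk⟩ : ∃ k, B h w.2 = 3 * k := ⟨B h w.2 / 3, by have := h3 w.2; omega⟩
    have e1 := hT2 w.2
    have e2 := sq_mod w.1
    have e3 : B w.2 w.2 = 2 * (w.1 * w.1) + 3 * (2 * w.1 * k + 3 * k * k) := by
      unfold mukai at hw
      rw [hk] at hw
      linear_combination -hw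
    omega
  obtain ⟨e, f, he, hf, hef⟩ := hK
  obtain ⟨a1, a2⟩ := hiso e he
  obtain ⟨b1, b2⟩ := hiso f hf
  obtain ⟨k, hk⟩ : ∃ k, B h e.2 = 3 * k := ⟨B h e.2 / 3, by have := h3 e.2; omega⟩
  obtain ⟨l, hl⟩ : ∃ l, B h f.2 = 3 * l := ⟨B h f.2 / 3, by have := h3 f.2; omega⟩
  obtain ⟨a, ha⟩ : ∃ a, e.1 = 3 * a := ⟨e.1 / 3, by omega⟩
  have e1 : B e.2 f.2 = 3 * (2 * a * f.1 + 3 * a * l + f.1 * k + 3 * k * l) - 1 := by
    unfold mukai at hef
    rw [hk, hl, ha] at hef
    linear_combination -hef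
  have e2 : B (e.2 - f.2) (e.2 - f.2) = B e.2 e.2 - 2 * B e.2 f.2 + B f.2 f.2 := by
    simp only [map_sub, LinearMap.sub_apply, hs f.2 e.2]
    ring
  have e3 := hT2 (e.2 - f.2)
  omega

end

/-- **The criteria of Hassett and Kuznetsov and of Galkin and Shinder on `C_18`**, for lattices `A`
of any rank: they are equivalent; they hold if and only if the label of some `T` is not `0` or `3`
modulo `9`, and if and only if one of the two fibrations has a multisection of degree prime to 3 or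
there is a K3 surface of degree 18. -/
theorem c18 (B : A →ₗ[ℤ] A →ₗ[ℤ] ℤ) (hs : ∀ S T, B S T = B T S) (h : A) (hh : B h h = 3)
    (hpar : ∀ T, Even (B T T - B h T)) (v : A) (hhv : B h v = 0) (hv : B v v = 6) :
    (HassettKuznetsov B h ↔ GalkinShinder B h) ∧
    (HassettKuznetsov B h ↔ ∃ T, label B h T % 9 ≠ 0 ∧ label B h T % 9 ≠ 3) ∧
    (HassettKuznetsov B h ↔ Section18 B h v ∨ Type18 B h v) := by
  have g1 : (∃ T, label B h T % 9 ≠ 0 ∧ label B h T % 9 ≠ 3) →
      GalkinShinder B h ∧ (Section18 B h v ∨ Type18 B h v) := by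
    rintro ⟨T, h0, h3⟩
    by_cases hS : Section18 B h v
    · exact ⟨gs_of_section hs hh hhv hv hS, Or.inl hS⟩
    · exact ⟨(both_of_label hs hh hpar hhv hv hS h0 h3).1,
        Or.inr (both_of_label hs hh hpar hhv hv hS h0 h3).2⟩
  have g2 := label_of_hk18 (B := B) (h := h) hs
  have g3 := hk_of_gs (B := B) hs hpar
  refine ⟨⟨fun hK => (g1 (g2 hK)).1, g3⟩, ⟨g2, fun hT => g3 (g1 hT).1⟩,
    ⟨fun hK => (g1 (g2 hK)).2, fun H => ?_⟩⟩
  rcases H with H | H
  · exact g3 (gs_of_section hs hh hhv hv H)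
  · exact hk_of_type18 hs hh hpar hhv hv H

end Pool.Agent.CFL
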