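import Pool.Agent.DIX.Labels
import Pool.Agent.CFL.Abs

/-!
# CFL: the criterion of Hassett and Kuznetsov on `C_24`

The notation is that of `Pool.Agent.DIX.Labels`: `A = H²,²(X, ℤ)` with the form `B`, `h` the square
of the hyperplane class, `ℤ × A` with the form `mukai B h` the numerical K-group of the Kuznetsov
component, `λ₁ = (-2, h)`, `λ₂ = (1, 0)`. `X` is in `C_24`: `v` in `A`, `v · h = 0`, `v · v = 8`.
`w₀ = 2 λ₁ + v` is isotropic. It belongs to a K3 surface `S` of degree 6 with the polarisation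
`λ₁ + 2 λ₂ = (0, h)` modulo `w₀` and to a class `β` of order at most 2.
-/

set_option autoImplicit false

namespace Pool.Agent.CFL

open Pool.Agent.DIX.Labels

variable {A : Type*} [AddCommGroup A]

/-- the form `mukai B h` as a bilinear map -/
def mukaiL (B : A →ₗ[ℤ] A →ₗ[ℤ] ℤ) (h : A) : (ℤ × A) →ₗ[ℤ] (ℤ × A) →ₗ[ℤ] ℤ :=
  LinearMap.mk₂ ℤ (mukai B h)
    (fun x y z => by
      simp only [mukai, Prod.fst_add, Prod.snd_add, map_add, LinearMap.add_apply]
      ring)
    (fun c x y => by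
      simp only [mukai, Prod.smul_fst, Prod.smul_snd, map_smul, LinearMap.smul_apply, smul_eq_mul]
      ring)
    (fun x y z => by
      simp only [mukai, Prod.fst_add, Prod.snd_add, map_add]
      ring)
    (fun c x y => by
      simp only [mukai, Prod.smul_fst, Prod.smul_snd, map_smul, smul_eq_mul]
      ring)

theorem mukaiL_apply (B : A →ₗ[ℤ] A →ₗ[ℤ] ℤ) (h : A) (x y : ℤ × A) :
    mukaiL B h x y = mukai B h x y := rfl

theorem mukai_symm {B : A →ₗ[ℤ] A →ₗ[ℤ] ℤ} (hs : ∀ S T, B S T = B T S) (h : A) (x y : ℤ × A) :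
    mukai B h x y = mukai B h y x := by
  unfold mukai
  rw [hs x.2 y.2]
  ring

theorem mukai_even {B : A →ₗ[ℤ] A →ₗ[ℤ] ℤ} {h : A} (hpar : ∀ T, Even (B T T - B h T))
    (x : ℤ × A) : Even (mukai B h x x) := by
  obtain ⟨k, hk⟩ := hpar x.2
  obtain ⟨c, hc⟩ : ∃ c, B h x.2 * (B h x.2 - 1) = 2 * c := by
    rcases Int.even_or_odd' (B h x.2) with ⟨c, hc | hc⟩
    · exact ⟨c * (B h x.2 - 1), by rw [hc]; ring⟩
    · exact ⟨B h x.2 * c, by rw [hc]; ring⟩
  refine ⟨x.1 * x.1 + x.1 * B h x.2 + c - k, ?_⟩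
  unfold mukai
  linear_combination hc - hk

theorem hk_iff (B : A →ₗ[ℤ] A →ₗ[ℤ] ℤ) (h : A) : HK (mukaiL B h) ↔ HassettKuznetsov B h :=
  Iff.rfl

/-! ### The criterion gives a label -/

private theorem even_of {a x : ℤ} (h : 2 ∣ 3 * a ^ 2 + 3 * a * x + x ^ 2) : 2 ∣ a ∧ 2 ∣ x := by
  rcases Int.even_or_odd' a with ⟨c, rfl | rfl⟩ <;> rcases Int.even_or_odd' x with ⟨d, rfl | rfl⟩
  · exact ⟨⟨c, rfl⟩, ⟨d, rfl⟩⟩
  · exfalso
    have : 3 * (2 * c) ^ 2 + 3 * (2 * c) * (2 * d + 1) + (2 * d + 1) ^ 2 =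
      2 * (6 * c ^ 2 + 6 * c * d + 3 * c + 2 * d ^ 2 + 2 * d) + 1 := by ring
    omega
  · exfalso
    have : 3 * (2 * c + 1) ^ 2 + 3 * (2 * c + 1) * (2 * d) + (2 * d) ^ 2 =
      2 * (6 * c ^ 2 + 6 * c + 1 + 6 * c * d + 3 * d + 2 * d ^ 2) + 1 := by ring
    omega
  · exfalso
    have : 3 * (2 * c + 1) ^ 2 + 3 * (2 * c + 1) * (2 * d + 1) + (2 * d + 1) ^ 2 =
      2 * (6 * c ^ 2 + 9 * c + 3 + 6 * c * d + 5 * d + 2 * d ^ 2) + 1 := by ring
    omega

theorem label_of_hk {B : A →ₗ[ℤ] A →ₗ[ℤ] ℤ} (hs : ∀ S T, B S T = B T S) {h : A}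
    (hpar : ∀ T, Even (B T T - B h T)) (hK : HassettKuznetsov B h) :
    ∃ T, label B h T % 4 = 2 := by
  by_contra hcon
  push Not at hcon
  have h4 : ∀ x, 4 ∣ label B h x := by
    intro x
    obtain ⟨k, hk⟩ := mukai_even hpar (0, x)
    have e1 := hcon x
    have e2 : label B h x = 2 * (B h x ^ 2 - 3 * k) := by
      unfold label
      unfold mukai at hk
      linear_combination -3 * hk
    omega
  have hd : ∀ x y, 2 ∣ 3 * B x y - B h x * B h y := by
    intro x y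
    have e1 := h4 x
    have e2 := h4 y
    have e3 := h4 (x + y)
    have e4 : label B h (x + y) = label B h x + label B h y + 2 * (3 * B x y - B h x * B h y) := by
      unfold label
      simp only [map_add, LinearMap.add_apply, hs y x]
      ring
    rw [e4] at e3
    omega
  have key : ∀ w : ℤ × A, mukai B h w w = 0 → 2 ∣ w.1 ∧ 2 ∣ B h w.2 := by
    intro w hw
    apply even_of
    obtain ⟨c, hc⟩ := h4 w.2
    unfold label at hc
    unfold mukai at hw
    have e2 : 2 * (3 * w.1 ^ 2 + 3 * w.1 * B h w.2 + B h w.2 ^ 2) = 4 * c := by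
      linear_combination 3 * hw + hc
    exact ⟨c, by linarith⟩
  obtain ⟨e, f, he, hf, hef⟩ := hK
  obtain ⟨⟨a, ha⟩, ⟨x, hx⟩⟩ := key e he
  obtain ⟨⟨b, hb⟩, ⟨y, hy⟩⟩ := key f hf
  obtain ⟨c, hc⟩ := hd e.2 f.2
  unfold mukai at hef
  rw [ha, hb, hx, hy] at hef
  rw [hx, hy] at hc
  have e2 : (3 : ℤ) = 2 * (12 * a * b + 6 * a * y + 6 * b * x + 4 * x * y - c) := by
    linear_combination -3 * hef - hc
  omega

/-! ### The divisor `C_24` -/

/-- `w₀ = 2 λ₁ + v` -/
def w24 (h v : A) : ℤ × A := (-4, 2 • h + v)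

/-- The class `β` is trivial: `w₀` has the divisibility 1. -/
def Split24 (B : A →ₗ[ℤ] A →ₗ[ℤ] ℤ) (h v : A) : Prop := ∃ u, Odd (mukai B h (w24 h v) u)

/-- There is a K3 surface of degree 24: an isotropic vector `w` with `(w, w₀) = -2` and `(w, h)` odd
(then `⟨w₀, w, h⟩ = U + ⟨24⟩`). -/
def TypeO (B : A →ₗ[ℤ] A →ₗ[ℤ] ℤ) (h v : A) : Prop := ∃ w, mukai B h w w = 0 ∧
  mukai B h w (w24 h v) = -2 ∧ Odd (mukai B h w (0, h))

/-- There is an untwisted partner of degree 6: an isotropic vector `w` with `(w, w₀) = -2` and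
`(w, h)` even (then `⟨w₀, w, h⟩ = U(2) + ⟨6⟩`) which has the divisibility 1. -/
def TypeE (B : A →ₗ[ℤ] A →ₗ[ℤ] ℤ) (h v : A) : Prop := ∃ w, mukai B h w w = 0 ∧
  mukai B h w (w24 h v) = -2 ∧ Even (mukai B h w (0, h)) ∧ ∃ u, Odd (mukai B h w u)

section

variable {B : A →ₗ[ℤ] A →ₗ[ℤ] ℤ} (hs : ∀ S T, B S T = B T S) {h : A} (hh : B h h = 3)
  (hpar : ∀ T, Even (B T T - B h T)) {v : A} (hhv : B h v = 0) (hv : B v v = 8)

include hs hh hhv hv in
theorem w24_sq : mukai B h (w24 h v) (w24 h v) = 0 := by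
  unfold mukai w24
  simp only [map_add, map_nsmul, LinearMap.add_apply, LinearMap.smul_apply, nsmul_eq_mul, hh, hhv,
    hs v h, hv]
  norm_num

include hh hhv in
theorem l2_w24 : mukai B h (1, 0) (w24 h v) = -2 := by
  unfold mukai w24
  simp only [map_add, map_nsmul, nsmul_eq_mul, hh, hhv, map_zero, LinearMap.zero_apply]
  norm_num

include hs hh hpar hhv hv in
theorem types_of_label {T : A} (hT : label B h T % 4 = 2) :
    Split24 B h v ∨ TypeO B h v ∨ TypeE B h v := by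
  by_cases hβ : Split24 B h v
  · exact Or.inl hβ
  right
  have hev : ∀ u, Even (mukaiL B h (w24 h v) u) := by
    intro u
    by_contra hodd
    rw [Int.not_even_iff_odd] at hodd
    exact hβ ⟨u, hodd⟩
  obtain ⟨T', hT'⟩ : ∃ T', T' = (3 : ℤ) • T - B h T • h := ⟨_, rfl⟩
  have t1 : B h T' = 0 := by
    rw [hT', map_sub, map_smul, map_smul, hh]
    simp only [smul_eq_mul]
    ring
  have t2 : B T' T' = 3 * label B h T := by
    rw [hT']
    unfold label
    simp only [map_sub, map_smul, LinearMap.sub_apply, LinearMap.smul_apply, hh, smul_eq_mul,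
      hs T h]
    ring
  obtain ⟨w, h1, h2, u, h3⟩ := exists_two (Q := mukaiL B h) (l := (1, 0)) (w₀ := w24 h v)
    (y := (1, T')) (u := (-2, h)) (mukai_symm hs h) (mukai_even hpar)
    (by
      rw [mukaiL_apply]
      simp [mukai])
    (l2_w24 hh hhv) (w24_sq hs hh hhv hv) hev
    (by
      rw [mukaiL_apply]
      unfold mukai
      simp only [t1, t2]
      omega)
    (by
      rw [mukaiL_apply]
      unfold mukai
      simp only [t1, hh, hs T' h]
      exact ⟨-1, by norm_num⟩)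
  rcases Int.even_or_odd (mukai B h w (0, h)) with h4 | h4
  · exact Or.inr ⟨w, h1, h2, h4, u, h3⟩
  · exact Or.inl ⟨w, h1, h2, h4⟩

include hs hh hpar hhv hv in
theorem hk_of_types (H : Split24 B h v ∨ TypeO B h v ∨ TypeE B h v) :
    HassettKuznetsov B h := by
  have cop : ∀ k : ℤ, Odd k → IsCoprime (-2) k := by
    rintro k ⟨c, rfl⟩
    exact ⟨c, 1, by ring⟩
  rcases H with ⟨u, hu⟩ | ⟨w, h1, h2, h3⟩ | ⟨w, h1, h2, h3, u, h4⟩
  · refine hk_of_coprime (Q := mukaiL B h) (mukai_symm hs h) (mukai_even hpar)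
      (w := w24 h v) (u := (1, 0)) (u' := u) (w24_sq hs hh hhv hv) ?_
    rw [mukaiL_apply, mukaiL_apply, mukai_symm hs h (w24 h v) (1, 0), l2_w24 hh hhv]
    exact cop _ hu
  · refine hk_of_coprime (Q := mukaiL B h) (mukai_symm hs h) (mukai_even hpar)
      (w := w) (u := w24 h v) (u' := (0, h)) h1 ?_
    rw [mukaiL_apply, mukaiL_apply, h2]
    exact cop _ h3
  · refine hk_of_coprime (Q := mukaiL B h) (mukai_symm hs h) (mukai_even hpar)
      (w := w) (u := w24 h v) (u' := u) h1 ?_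
    rw [mukaiL_apply, mukaiL_apply, h2]
    exact cop _ h4

end

/-- **The criterion of Hassett and Kuznetsov on `C_24`**, for lattices `A` of any rank: it holds if
and only if the label of some `T` is `2` modulo `4`, and if and only if `β = 0`, or there is a K3
surface of degree 24 (type O), or there is an untwisted partner of degree 6 (type E). -/
theorem c24 (B : A →ₗ[ℤ] A →ₗ[ℤ] ℤ) (hs : ∀ S T, B S T = B T S) (h : A) (hh : B h h = 3)
    (hpar : ∀ T, Even (B T T - B h T)) (v : A) (hhv : B h v = 0) (hv : B v v = 8) :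
    (HassettKuznetsov B h ↔ ∃ T, label B h T % 4 = 2) ∧
    (HassettKuznetsov B h ↔ Split24 B h v ∨ TypeO B h v ∨ TypeE B h v) := by
  have h1 := label_of_hk (B := B) hs hpar
  have h2 := fun T (hT : label B h T % 4 = 2) => types_of_label hs hh hpar hhv hv hT
  have h3 := hk_of_types hs hh hpar hhv hv
  exact ⟨⟨h1, fun ⟨T, hT⟩ => h3 (h2 T hT)⟩, ⟨fun hK => (h1 hK).elim h2, h3⟩⟩

end Pool.Agent.CFL
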