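import Pool.Agent.CFL.L18

/-!
# CFL: the lattices of cubic fourfolds with a label 8, 18 or 24

The lattice part of the results on one direction (if) of the conjecture of Galkin and Shinder for
cubic fourfolds in `C_8`, `C_18` and `C_24`. `A = H²,²(X, ℤ)` is any abelian group with a
symmetric bilinear form `B` (the intersection form), `h` (the square of the hyperplane class) has
square 3 and is characteristic. `HassettKuznetsov`: the numerical K-group `ℤ × A` of the Kuznetsov
component contains a hyperbolic plane. `GalkinShinder`: it contains an isotropic vector `w` with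
`(w, λ₁) = 1`; by Addington this is the condition that `F(X)` is birational to `S^[2]` for a K3
surface `S`.
-/

set_option autoImplicit false

namespace Pool.Agent.CFL

open Pool.Agent.DIX.Labels

variable {A : Type*} [AddCommGroup A]

/-- **Lattices on `C_8`, `C_18` and `C_24`.**
(8) If `A` contains the class of a plane, then the criteria of Galkin, Shinder and of Hassett,
Kuznetsov are equivalent and hold if and only if some label is `2` modulo `4`.
(18) If `A` contains `v` with `v · h = 0`, `v · v = 6`, then the two criteria are equivalent, and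
hold if and only if some label is not `0` or `3` modulo `9`, and if and only if one of the two
fibrations by del Pezzo surfaces of degree 6 has a multisection of degree prime to 3 or there is a
K3 surface of degree 18.
(24) If `A` contains `v` with `v · h = 0`, `v · v = 8`, then the criterion of Hassett and Kuznetsov
(which follows from the criterion of Galkin and Shinder) holds if and only if some label is `2`
modulo `4`, and if and only if the class of order 2 is trivial or there is a K3 surface of degree 24
(type O) or an untwisted partner of degree 6 (type E). -/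
theorem main (B : A →ₗ[ℤ] A →ₗ[ℤ] ℤ) (hs : ∀ S T, B S T = B T S) (h : A) (hh : B h h = 3)
    (hpar : ∀ T, Even (B T T - B h T)) :
    (∀ P, B P P = 3 ∧ B h P = 1 →
      (GalkinShinder B h ↔ HassettKuznetsov B h) ∧
      (HassettKuznetsov B h ↔ ∃ T, label B h T % 4 = 2)) ∧
    (∀ v, B h v = 0 → B v v = 6 →
      (GalkinShinder B h ↔ HassettKuznetsov B h) ∧
      (HassettKuznetsov B h ↔ ∃ T, label B h T % 9 ≠ 0 ∧ label B h T % 9 ≠ 3) ∧
      (HassettKuznetsov B h ↔ Section18 B h v ∨ Type18 B h v)) ∧
    (∀ v, B h v = 0 → B v v = 8 →
      (GalkinShinder B h → HassettKuznetsov B h) ∧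
      (HassettKuznetsov B h ↔ ∃ T, label B h T % 4 = 2) ∧
      (HassettKuznetsov B h ↔ Split24 B h v ∨ TypeO B h v ∨ TypeE B h v)) := by
  refine ⟨fun P hP => ?_, fun v h1 h2 => ?_, fun v h1 h2 => ?_⟩
  · obtain ⟨e1, e2⟩ := Pool.Agent.DIX.Labels.result B hs h hh hpar P hP
    exact ⟨e1.trans e2.symm, e2⟩
  · obtain ⟨e1, e2, e3⟩ := c18 B hs h hh hpar v h1 h2
    exact ⟨e1.symm, e2, e3⟩
  · obtain ⟨e1, e2⟩ := c24 B hs h hh hpar v h1 h2
    exact ⟨hk_of_gs hs hpar, e1, e2⟩

end Pool.Agent.CFL
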